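import Pool.Agent.U62.GO.Loc
import Pool.Agent.U62.CL.Osc

/-!
# The joint normal law for the products of several random hyperelliptic pencils
-/

set_option autoImplicit false
set_option linter.unusedSectionVars false

namespace Pool.Agent.U62.GO

open Finset Pool.Agent.U62.NG Pool.Agent.U62.CL MeasureTheory ProbabilityTheory
open Pool.Agent.Y722.HS (EM red)

variable {N D : ℕ}

/-- The variances. -/
noncomputable def sg (a : Pr N) : ℝ := if a.1.1 = a.1.2 then 2 else 1

theorem sg_one (a : Pr N) : 1 ≤ sg a := by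
  unfold sg
  split_ifs <;> norm_num

theorem goe_gen (hD : 4 ≤ D) (g : Fin N → ℕ) (hg : ∀ i, 2 ≤ g i) (u : Pr N → ℝ) {ε : ℝ} (hε : 0 < ε) :
    ∃ K : ℕ, 1 ≤ K ∧ ∀ (P : Finset ℕ) (w : ℕ → ℝ) (V : ℝ) (y H : ℕ), (∀ p ∈ P, p.Prime ∧ p ≤ y) → 1 ≤ y →
      (∀ p ∈ P, |w p| ≤ 1) → K ≤ V → |∑ p ∈ P, w p ^ 2 - V| ≤ V / K → y ^ K ≤ H →
      |({c : Vx (dg g) × Fin D → ℤ | (∀ i, |c i| ≤ H) ∧ ∀ a : Pr N,
        ∑ p ∈ P, w p * UG g a p (red p c) ≤ u a * (√(sg a) * √V)}.ncard : ℝ) /
        (2 * H + 1 : ℝ) ^ Fintype.card (Vx (dg g) × Fin D) - ∏ a, (gaussianReal 0 1).real (Set.Iic (u a))| ≤ ε := by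
  obtain ⟨C, hC⟩ := ld_UG hD g hg
  have hC' : LDs (ι := Vx (dg g) × Fin D) (UG g) (fun _ => 0) (gg (N := N)) (C + 1) := by
    have h1 := hC.C1
    refine ⟨by linarith, fun a p hp _ => ?_, fun a b p hp _ => ?_, fun a p hp _ => ?_⟩
    · have hp0 : (0 : ℝ) < p := by exact_mod_cast hp.pos
      exact (hC.m1 a p hp).trans (div_le_div_of_nonneg_right (by linarith) hp0.le)
    · have hp0 : (0 : ℝ) < p := by exact_mod_cast hp.pos
      exact (hC.m2 a b p hp).trans (div_le_div_of_nonneg_right (by linarith) hp0.le)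
    · have := hC.m4 a p hp
      linarith
  obtain ⟨K, hK1, hK⟩ := joint_ix (Vx (dg g) × Fin D) (Pr N) (C + 1) u hε
  refine ⟨K, hK1, fun P w V y H hP hy hw hV hWV hH => ?_⟩
  have hK0 : (1 : ℝ) ≤ K := by exact_mod_cast hK1
  have hV0 : 0 < V := by linarith
  have hs : ∀ a : Pr N, 0 < √(sg a) := fun a => Real.sqrt_pos.2 (by
    have := sg_one a
    linarith)
  have hs2 : ∀ a : Pr N, √(sg a) * √(sg a) = sg a := fun a => Real.mul_self_sqrt (by
    have := sg_one a
    linarith)
  have hs1 : ∀ a : Pr N, 1 ≤ √(sg a) := fun a => Real.one_le_sqrt.2 (sg_one a)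
  have hVK : V / K ≤ V := div_le_self hV0.le hK0
  have hfin := hK (UG g) (fun _ => 0) gg hC' P (fun a p => w p / √(sg a)) V y H hP hy (fun a p hp => by
      rw [abs_div, abs_of_pos (hs a), div_le_one (hs a)]
      exact (hw p hp).trans (hs1 a)) hV (fun a => by
      have e : ∑ p ∈ P, (w p / √(sg a)) ^ 2 = (∑ p ∈ P, w p ^ 2) / sg a := by
        rw [Finset.sum_div]
        refine Finset.sum_congr rfl fun p _ => ?_
        rw [div_pow, sq (√(sg a)), hs2]
      rw [e]
      have h1 : ∑ p ∈ P, w p ^ 2 ≤ 2 * V := by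
        have := (abs_le.1 hWV).2
        linarith
      have h2 : (∑ p ∈ P, w p ^ 2) / sg a ≤ ∑ p ∈ P, w p ^ 2 :=
        div_le_self (Finset.sum_nonneg fun _ _ => sq_nonneg _) (sg_one a)
      have h3 := hC.C1
      have h4 : 2 * V ≤ (C + 1) * V := by nlinarith
      linarith) (fun a b => by
      by_cases hab : a = b
      · subst hab
        rw [if_pos rfl]
        have e : ∑ p ∈ P, w p / √(sg a) * (w p / √(sg a)) * gg a a = ∑ p ∈ P, w p ^ 2 := by
          refine Finset.sum_congr rfl fun p _ => ?_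
          have h1 : gg a a = sg a := by
            unfold gg sg
            rw [if_pos rfl]
          have h2 : sg a ≠ 0 := by
            have := sg_one a
            linarith
          rw [h1, div_mul_div_comm, hs2]
          field_simp
        rw [e]
        exact hWV
      · rw [if_neg hab]
        have e : ∑ p ∈ P, w p / √(sg a) * (w p / √(sg b)) * gg a b = 0 := by
          refine Finset.sum_eq_zero fun p _ => ?_
          unfold gg
          rw [if_neg hab, mul_zero]
        rw [e, sub_zero, abs_zero]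
        positivity) hH
  refine le_trans (le_of_eq ?_) hfin
  congr 3
  congr 2
  ext c
  simp only [Set.mem_ofPred_eq]
  refine and_congr_right fun _ => forall_congr' fun a => ?_
  have e : ∑ p ∈ P, w p / √(sg a) * (UG g a p (red p c) - 0) = (∑ p ∈ P, w p * UG g a p (red p c)) / √(sg a) := by
    rw [Finset.sum_div]
    refine Finset.sum_congr rfl fun p _ => ?_
    rw [sub_zero]
    ring
  rw [e, div_le_iff₀ (hs a)]
  have e2 : u a * (√(sg a) * √V) = u a * √V * √(sg a) := by ring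
  rw [e2]

/-- Logarithmic weights. -/
theorem goe_log (hD : 4 ≤ D) (g : Fin N → ℕ) (hg : ∀ i, 2 ≤ g i) (u : Pr N → ℝ) {ε : ℝ} (hε : 0 < ε) :
    ∃ K : ℕ, ∀ T H : ℕ, K ≤ T → T ^ K ≤ H →
      |({c : Vx (dg g) × Fin D → ℤ | (∀ i, |c i| ≤ H) ∧ ∀ a : Pr N,
        ∑ p ∈ PT T, Real.log p / √p * UG g a p (red p c) ≤ u a * √(sg a) * (Real.log T / √2)}.ncard : ℝ) /
        (2 * H + 1 : ℝ) ^ Fintype.card (Vx (dg g) × Fin D) - ∏ a, (gaussianReal 0 1).real (Set.Iic (u a))| ≤ ε := by
  obtain ⟨K, hK1, hK⟩ := goe_gen hD g hg u hε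
  have hK0 : (1 : ℝ) ≤ K := by exact_mod_cast hK1
  obtain ⟨N0, hN0⟩ := diag (ε := 1 / (2 * K)) (by positivity)
  obtain ⟨N1, hN1⟩ : ∃ N1 : ℕ, ∀ M : ℕ, N1 ≤ M → 8 * (K : ℝ) ≤ Real.log M := by
    have h3 := (Real.tendsto_log_atTop.comp tendsto_natCast_atTop_atTop).eventually_ge_atTop (8 * (K : ℝ))
    exact Filter.eventually_atTop.1 h3
  refine ⟨max (max K 1) (max N0 N1), fun T H hT hH => ?_⟩
  have hTK : K ≤ max (max K 1) (max N0 N1) := (le_max_left _ _).trans (le_max_left _ _)
  have hT1 : 1 ≤ T := ((le_max_right _ _).trans (le_max_left _ _)).trans hT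
  have h0 := hN0 T (((le_max_left _ _).trans (le_max_right _ _)).trans hT)
  have h1 := hN1 T (((le_max_right _ _).trans (le_max_right _ _)).trans hT)
  have hlog : 0 < Real.log T := by linarith
  have hPp : ∀ p ∈ PT T, p.Prime ∧ p ≤ T := by
    intro p hp
    unfold PT at hp
    rw [Finset.mem_filter, Finset.mem_range] at hp
    exact ⟨hp.2, by omega⟩
  have hfin := hK (PT T) (fun p => Real.log p / (2 * √p)) (Real.log T ^ 2 / 8) T H hPp hT1
    (fun p hp => by
      have hp1 : 1 ≤ p := (hPp p hp).1.one_lt.le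
      have hp1r : (1 : ℝ) ≤ p := by exact_mod_cast hp1
      have hs : 0 < √(p : ℝ) := Real.sqrt_pos.2 (by linarith)
      have hl : 0 ≤ Real.log p := Real.log_nonneg hp1r
      rw [abs_of_nonneg (by positivity), div_le_one (by positivity)]
      have h := Real.log_le_sub_one_of_pos hs
      rw [Real.log_sqrt (by linarith)] at h
      linarith)
    (by nlinarith)
    (by
      have e : ∑ p ∈ PT T, (Real.log p / (2 * √(p : ℝ))) ^ 2 = (∑ p ∈ PT T, Real.log p * (Real.log p / p)) / 4 := by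
        rw [Finset.sum_div]
        refine Finset.sum_congr rfl fun p hp => ?_
        rw [div_pow, mul_pow, Real.sq_sqrt (Nat.cast_nonneg p)]
        ring
      rw [e]
      have e2 : (∑ p ∈ PT T, Real.log p * (Real.log p / p)) / 4 - Real.log T ^ 2 / 8 =
          (∑ p ∈ PT T, Real.log p * (Real.log p / p) - Real.log T ^ 2 / 2) / 4 := by ring
      rw [e2, abs_div, abs_of_pos (by norm_num : (0 : ℝ) < 4), div_le_iff₀ (by norm_num)]
      refine h0.trans (le_of_eq ?_)
      field_simp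
      ring)
    ((Nat.pow_le_pow_right hT1 hTK).trans hH)
  refine le_trans (le_of_eq ?_) hfin
  congr 3
  congr 2
  ext c
  simp only [Set.mem_ofPred_eq]
  refine and_congr_right fun _ => forall_congr' fun a => ?_
  have e : ∑ p ∈ PT T, Real.log p / √p * UG g a p (red p c) =
      2 * ∑ p ∈ PT T, Real.log p / (2 * √p) * UG g a p (red p c) := by
    rw [Finset.mul_sum]
    refine Finset.sum_congr rfl fun p hp => ?_
    have hp1r : (1 : ℝ) ≤ p := by exact_mod_cast (hPp p hp).1.one_lt.le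
    have hs : √(p : ℝ) ≠ 0 := (Real.sqrt_pos.2 (by linarith)).ne'
    field_simp
  have e3 : √(Real.log T ^ 2 / 8) = Real.log T / √2 / 2 := by
    have h8 : Real.log T ^ 2 / 8 = (Real.log T / √2 / 2) ^ 2 := by
      rw [div_pow, div_pow, Real.sq_sqrt (by norm_num)]
      ring
    rw [h8, Real.sqrt_sq (by positivity)]
  rw [e, e3]
  have e4 : u a * (√(sg a) * (Real.log T / √2 / 2)) = u a * √(sg a) * (Real.log T / √2) / 2 := by ring
  rw [e4]
  constructor <;> intro h <;> linarith

end Pool.Agent.U62.GO
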