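import Pool.Agent.U62.GO.Mom

/-!
# Products of the character sums of several random hyperelliptic curves: the local data
-/

set_option autoImplicit false
set_option linter.unusedSectionVars false

namespace Pool.Agent.U62.GO

open Finset Polynomial Pool.Agent.U62.NG Pool.Agent.Y57.FD.Mom Pool.Agent.N647.NG Pool.Agent.U62.CL
open Pool.Agent.Y722.HS (EM)

section Cross

variable {κ : Type} [Fintype κ] [DecidableEq κ] {D : ℕ}

theorem EM_sq_add (p : ℕ) [NeZero p] {ι : Type} [Fintype ι] [DecidableEq ι] (X Y : (ι → ZMod p) → ℝ) :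
    EM p (fun c => (X c + Y c) ^ 2) = EM p (fun c => X c ^ 2) + 2 * EM p (fun c => X c * Y c) + EM p (fun c => Y c ^ 2) := by
  have e : (fun c => (X c + Y c) ^ 2) = fun c => (X c ^ 2 + 2 * (X c * Y c)) + Y c ^ 2 := by
    funext c
    ring
  rw [e, EM_add' p (fun c => X c ^ 2 + 2 * (X c * Y c)) (fun c => Y c ^ 2), EM_add' p (fun c => X c ^ 2) (fun c => 2 * (X c * Y c)),
    EM_mul' p 2 (fun c => X c * Y c)]

theorem EM_cross (p : ℕ) [Fact p.Prime] (hD : 4 ≤ D) (s1 s2 : (κ → ZMod p) → ℝ) (h1 : EV s1 = 0) (h2 : EV s2 = 0) :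
    EM (ι := κ × Fin D) p (fun c => (∑ t : ZMod p, s1 (vt c t)) * (∑ t : ZMod p, s2 (vt c t))) =
      p * EV (fun v => s1 v * s2 v) := by
  have h12 : EV (fun v => s1 v + s2 v) = 0 := by rw [ev_add, h1, h2, add_zero]
  have a1 := (EM_sum (D := D) p hD s1 h1).2.1
  have a2 := (EM_sum (D := D) p hD s2 h2).2.1
  have a3 := (EM_sum (D := D) p hD (fun v => s1 v + s2 v) h12).2.1
  have e1 : (fun c : κ × Fin D → ZMod p => (∑ t : ZMod p, (s1 (vt c t) + s2 (vt c t))) ^ 2) =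
      fun c => ((∑ t : ZMod p, s1 (vt c t)) + (∑ t : ZMod p, s2 (vt c t))) ^ 2 := by
    funext c
    rw [Finset.sum_add_distrib]
  rw [e1, EM_sq_add p (fun c => ∑ t : ZMod p, s1 (vt c t)) (fun c => ∑ t : ZMod p, s2 (vt c t)), a1, a2] at a3
  have e2 : (∑ v, (s1 v + s2 v) ^ 2) / (Fintype.card (κ → ZMod p) : ℝ) =
      (∑ v, s1 v ^ 2) / (Fintype.card (κ → ZMod p) : ℝ) + 2 * EV (fun v => s1 v * s2 v) +
        (∑ v, s2 v ^ 2) / (Fintype.card (κ → ZMod p) : ℝ) := by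
    unfold EV
    have : ∀ v, (s1 v + s2 v) ^ 2 = s1 v ^ 2 + 2 * (s1 v * s2 v) + s2 v ^ 2 := fun v => by ring
    simp only [this]
    rw [Finset.sum_add_distrib, Finset.sum_add_distrib, ← Finset.mul_sum]
    ring
  rw [e2] at a3
  linarith

end Cross

section Bound

variable {K : Type} [Field K] [Fintype K] [DecidableEq K] {N : ℕ}

theorem val_le (h2 : ringChar K ≠ 2) (g : ℕ) (u : Fin (2 * g + 1) → K) :
    |∑ x : K, (quadraticChar K (val K (2 * g + 1) u x) : ℝ)| ≤ 2 * g * √(Fintype.card K) := by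
  have h1 : (X ^ (2 * g + 1) + ∑ k : Fin (2 * g + 1), C (u k) * X ^ (k : ℕ) : K[X]).Monic := monic_X_pow_add (deg_low _)
  have h1d : (X ^ (2 * g + 1) + ∑ k : Fin (2 * g + 1), C (u k) * X ^ (k : ℕ) : K[X]).natDegree = 2 * g + 1 := by
    rw [Polynomial.natDegree_add_eq_left_of_degree_lt]
    · exact natDegree_X_pow _
    · rw [degree_X_pow]
      exact deg_low _
  have h := weil_odd h2 h1 h1d
  have e : ∀ x : K, (X ^ (2 * g + 1) + ∑ k : Fin (2 * g + 1), C (u k) * X ^ (k : ℕ) : K[X]).eval x = val K (2 * g + 1) u x := by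
    intro x
    unfold Pool.Agent.Y57.FD.Mom.val
    simp only [eval_add, eval_pow, eval_X, eval_finsetSum, eval_mul, eval_C]
  simp only [e] at h
  exact h

/-- The degrees. -/
abbrev dg (g : Fin N → ℕ) : Fin N → ℕ := fun i => 2 * g i + 1

theorem hh_le (h2 : ringChar K ≠ 2) (g : Fin N → ℕ) (i : Fin N) (v : Vx (dg g) → K) :
    |hh i v| ≤ 2 * g i * √(Fintype.card K) := val_le h2 (g i) _

/-- The constant. -/
noncomputable def BB (g : Fin N → ℕ) : ℝ := 4 * (∑ i, (g i : ℝ)) ^ 2 + 1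

theorem BB_one (g : Fin N → ℕ) : 1 ≤ BB g := by
  unfold BB
  nlinarith [sq_nonneg (∑ i, (g i : ℝ))]

theorem ZZ_le (h2 : ringChar K ≠ 2) (g : Fin N → ℕ) (i j : Fin N) (v : Vx (dg g) → K) :
    |ZZ i j v| ≤ BB g * Fintype.card K := by
  have hq : (1 : ℝ) ≤ Fintype.card K := by exact_mod_cast Fintype.card_pos
  have hi : (g i : ℝ) ≤ ∑ i, (g i : ℝ) := Finset.single_le_sum (f := fun i => (g i : ℝ)) (fun _ _ => Nat.cast_nonneg _) (mem_univ i)
  have hj : (g j : ℝ) ≤ ∑ i, (g i : ℝ) := Finset.single_le_sum (f := fun i => (g i : ℝ)) (fun _ _ => Nat.cast_nonneg _) (mem_univ j)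
  have hg0 : (0 : ℝ) ≤ g i := Nat.cast_nonneg _
  have hgj0 : (0 : ℝ) ≤ g j := Nat.cast_nonneg _
  have h3 := hh_le h2 g i v
  have h4 := hh_le h2 g j v
  have hs : 0 ≤ √(Fintype.card K : ℝ) := Real.sqrt_nonneg _
  have hss : √(Fintype.card K : ℝ) * √(Fintype.card K : ℝ) = Fintype.card K := Real.mul_self_sqrt (by linarith)
  have h5 : |hh i v * hh j v| ≤ 4 * (∑ i, (g i : ℝ)) ^ 2 * Fintype.card K := by
    rw [abs_mul]
    calc |hh i v| * |hh j v| ≤ (2 * g i * √(Fintype.card K : ℝ)) * (2 * g j * √(Fintype.card K : ℝ)) :=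
          mul_le_mul h3 h4 (abs_nonneg _) (by positivity)
      _ = 4 * ((g i : ℝ) * g j) * (√(Fintype.card K : ℝ) * √(Fintype.card K : ℝ)) := by ring
      _ = 4 * ((g i : ℝ) * g j) * Fintype.card K := by rw [hss]
      _ ≤ 4 * (∑ i, (g i : ℝ)) ^ 2 * Fintype.card K := by
          refine mul_le_mul_of_nonneg_right ?_ (by linarith)
          have : (g i : ℝ) * g j ≤ (∑ i, (g i : ℝ)) ^ 2 := by
            rw [sq]
            exact mul_le_mul hi hj hgj0 (hg0.trans hi)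
          linarith
  have h6 : |(if i = j then (Fintype.card K : ℝ) - 1 else 0)| ≤ Fintype.card K := by
    split_ifs
    · rw [abs_of_nonneg (by linarith)]
      linarith
    · rw [abs_zero]
      linarith
  unfold ZZ BB
  refine (abs_sub _ _).trans ?_
  nlinarith

end Bound

section Data

variable {N D : ℕ}

/-- The pairs. -/
abbrev Pr (N : ℕ) : Type := {a : Fin N × Fin N // a.1 ≤ a.2}

/-- The normalised errors. -/
noncomputable def UG (g : Fin N → ℕ) (a : Pr N) (p : ℕ) (c : Vx (dg g) × Fin D → ZMod p) : ℝ :=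
  if h : p.Prime ∧ p ≠ 2 then
    haveI : Fact p.Prime := ⟨h.1⟩; 1 / (p * √p) * ∑ t : ZMod p, ZZ a.1.1 a.1.2 (vt c t)
  else if a.1.1 = a.1.2 then -(1 / √2) else 0

/-- The covariances. -/
noncomputable def gg (a b : Pr N) : ℝ := if a = b then (if a.1.1 = a.1.2 then 2 else 1) else 0

theorem UG_eq (g : Fin N → ℕ) (a : Pr N) (p : ℕ) [hp : Fact p.Prime] (h2 : p ≠ 2) (c : Vx (dg g) × Fin D → ZMod p) :
    UG g a p c = 1 / (p * √p) * ∑ t : ZMod p, ZZ a.1.1 a.1.2 (vt c t) := by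
  unfold UG
  rw [dif_pos ⟨hp.out, h2⟩]

theorem UG_two (g : Fin N → ℕ) (a : Pr N) (c : Vx (dg g) × Fin D → ZMod 2) :
    UG g a 2 c = if a.1.1 = a.1.2 then -(1 / √2) else 0 := by
  unfold UG
  rw [dif_neg (fun h => h.2 rfl)]

theorem UG_two_le (g : Fin N → ℕ) (a : Pr N) (c : Vx (dg g) × Fin D → ZMod 2) : |UG g a 2 c| ≤ 1 := by
  rw [UG_two]
  split_ifs
  · rw [abs_neg, abs_of_nonneg (by positivity), div_le_one (by positivity)]
    exact Real.one_le_sqrt.2 (by norm_num)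
  · rw [abs_zero]
    norm_num

theorem var_diag {p : ℝ} (hp : 1 ≤ p) :
    |((p - 1) + 3 * (p - 1) ^ 3 / p - (p - 1) ^ 2) / p ^ 2 - 2| ≤ 16 / p := by
  have hp0 : 0 < p := by linarith
  have e : ((p - 1) + 3 * (p - 1) ^ 3 / p - (p - 1) ^ 2) / p ^ 2 - 2 = (-(6 * p ^ 2) + 10 * p - 3 - 3 * p ^ 1 + 0) / p ^ 3 := by
    field_simp
    ring
  rw [e, abs_div, abs_of_pos (by positivity : (0 : ℝ) < p ^ 3), div_le_div_iff₀ (by positivity) hp0]
  have h1 : |-(6 * p ^ 2) + 10 * p - 3 - 3 * p ^ 1 + 0| ≤ 16 * p ^ 2 := by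
    rw [abs_le]
    constructor <;> nlinarith
  calc |-(6 * p ^ 2) + 10 * p - 3 - 3 * p ^ 1 + 0| * p ≤ 16 * p ^ 2 * p := mul_le_mul_of_nonneg_right h1 hp0.le
    _ = 16 * p ^ 3 := by ring

theorem var_off {p : ℝ} (hp : 1 ≤ p) : |(p - 1) ^ 2 / p ^ 2 - 1| ≤ 16 / p := by
  have hp0 : 0 < p := by linarith
  have e : (p - 1) ^ 2 / p ^ 2 - 1 = (1 - 2 * p) / p ^ 2 := by
    field_simp
    ring
  rw [e, abs_div, abs_of_pos (by positivity : (0 : ℝ) < p ^ 2), div_le_div_iff₀ (by positivity) hp0]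
  have h1 : |1 - 2 * p| ≤ 16 * p := by
    rw [abs_le]
    constructor <;> linarith
  calc |1 - 2 * p| * p ≤ 16 * p * p := mul_le_mul_of_nonneg_right h1 hp0.le
    _ = 16 * p ^ 2 := by ring

theorem cube_sq {p : ℝ} (hp : 0 < p) : (1 / (p * √p)) * (1 / (p * √p)) = 1 / p ^ 3 := by
  have h := Real.mul_self_sqrt hp.le
  rw [div_mul_div_comm, one_mul]
  congr 1
  calc p * √p * (p * √p) = p ^ 2 * (√p * √p) := by ring
    _ = p ^ 3 := by rw [h]; ring

theorem ld_UG (hD : 4 ≤ D) (g : Fin N → ℕ) (hg : ∀ i, 2 ≤ g i) :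
    ∃ C : ℝ, LDs (ι := Vx (dg g) × Fin D) (UG g) (fun _ => 0) (gg (N := N)) C := by
  have hB := BB_one g
  have hm : ∀ i, 4 ≤ dg g i := fun i => by
    have := hg i
    show 4 ≤ 2 * g i + 1
    omega
  refine ⟨4 * BB g ^ 4 + 16, ?_⟩
  have hB4 : 0 ≤ BB g ^ 4 := by positivity
  refine ⟨by linarith, ?_, ?_, ?_⟩
  · intro a p hp _
    by_cases h2 : p = 2
    · subst h2
      have h1 := EM_abs 2 (UG (D := D) g a 2) 1 (UG_two_le g a)
      rw [sub_zero]
      refine h1.trans ?_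
      rw [le_div_iff₀ (by norm_num)]
      push_cast
      linarith
    · have : Fact p.Prime := ⟨hp⟩
      have hK : ringChar (ZMod p) ≠ 2 := by rwa [ZMod.ringChar_zmod_n]
      have hp0 : (0 : ℝ) < p := by exact_mod_cast hp.pos
      have e : UG (D := D) g a p = fun c => 1 / (p * √p) * ∑ t : ZMod p, ZZ a.1.1 a.1.2 (vt c t) := by
        funext c
        exact UG_eq g a p h2 c
      rw [e, EM_mul' p (1 / (p * √p)) (fun c => ∑ t : ZMod p, ZZ a.1.1 a.1.2 (vt c t)),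
        (EM_sum (D := D) p hD (ZZ a.1.1 a.1.2) (E_ZZ hm hK _ _)).1, mul_zero, sub_zero, abs_zero]
      positivity
  · intro a b p hp _
    by_cases h2 : p = 2
    · subst h2
      have h1 := EM_abs 2 (fun c => UG (D := D) g a 2 c * UG (D := D) g b 2 c) 1 (fun c => by
        rw [abs_mul]
        have := UG_two_le g a c
        have := UG_two_le g b c
        have := abs_nonneg (UG g b 2 c)
        have := abs_nonneg (UG g a 2 c)
        nlinarith)
      have h3 : |gg a b| ≤ 2 := by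
        unfold gg
        split_ifs <;> norm_num
      refine (abs_sub _ _).trans ?_
      rw [mul_zero, zero_add, le_div_iff₀ (by norm_num)]
      push_cast
      linarith
    · have : Fact p.Prime := ⟨hp⟩
      have hK : ringChar (ZMod p) ≠ 2 := by rwa [ZMod.ringChar_zmod_n]
      have hp0 : (0 : ℝ) < p := by exact_mod_cast hp.pos
      have hp1 : (1 : ℝ) ≤ p := by exact_mod_cast hp.one_lt.le
      have e : (fun c => UG (D := D) g a p c * UG (D := D) g b p c) = fun c => 1 / (p : ℝ) ^ 3 *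
          ((∑ t : ZMod p, ZZ a.1.1 a.1.2 (vt c t)) * (∑ t : ZMod p, ZZ b.1.1 b.1.2 (vt c t))) := by
        funext c
        rw [UG_eq g a p h2 c, UG_eq g b p h2 c, mul_mul_mul_comm, cube_sq hp0]
      rw [e, EM_mul' p (1 / (p : ℝ) ^ 3) (fun c => (∑ t : ZMod p, ZZ a.1.1 a.1.2 (vt c t)) *
        (∑ t : ZMod p, ZZ b.1.1 b.1.2 (vt c t))), EM_cross (D := D) p hD (ZZ a.1.1 a.1.2) (ZZ b.1.1 b.1.2)
        (E_ZZ hm hK _ _) (E_ZZ hm hK _ _), E_ZZZZ hm hK a.2 b.2, ZMod.card]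
      have hab : (a.1.1 = b.1.1 ∧ a.1.2 = b.1.2) ↔ a = b := by
        constructor
        · rintro ⟨h, h'⟩
          exact Subtype.ext (Prod.ext h h')
        · rintro rfl
          exact ⟨rfl, rfl⟩
      simp only [hab]
      have hC : 16 / (p : ℝ) ≤ (4 * BB g ^ 4 + 16) / p := div_le_div_of_nonneg_right (by linarith) hp0.le
      unfold gg
      by_cases h3 : a = b
      · rw [if_pos h3, if_pos h3]
        by_cases h4 : a.1.1 = a.1.2
        · rw [if_pos h4, if_pos h4]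
          have h5 := var_diag hp1
          have e2 : 1 / (p : ℝ) ^ 3 * (p * (((p : ℝ) - 1) + 3 * (p - 1) ^ 3 / p - (p - 1) ^ 2)) - (0 * 0 + 2) =
              (((p : ℝ) - 1) + 3 * (p - 1) ^ 3 / p - (p - 1) ^ 2) / p ^ 2 - 2 := by
            field_simp
            ring
          rw [e2]
          exact h5.trans hC
        · rw [if_neg h4, if_neg h4]
          have h5 := var_off hp1
          have e2 : 1 / (p : ℝ) ^ 3 * (p * ((p : ℝ) - 1) ^ 2) - (0 * 0 + 1) = ((p : ℝ) - 1) ^ 2 / p ^ 2 - 1 := by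
            field_simp
            ring
          rw [e2]
          exact h5.trans hC
      · rw [if_neg h3, if_neg h3, mul_zero, mul_zero, mul_zero, add_zero, sub_zero, abs_zero]
        positivity
  · intro a p hp _
    by_cases h2 : p = 2
    · subst h2
      have h1 := EM_abs 2 (fun c => UG (D := D) g a 2 c ^ 4) 1 (fun c => by
        rw [abs_pow]
        exact pow_le_one₀ (abs_nonneg _) (UG_two_le g a c))
      have := (abs_le.1 h1).2
      linarith
    · have : Fact p.Prime := ⟨hp⟩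
      have hK : ringChar (ZMod p) ≠ 2 := by rwa [ZMod.ringChar_zmod_n]
      have hp0 : (0 : ℝ) < p := by exact_mod_cast hp.pos
      have hp1 : (1 : ℝ) ≤ p := by exact_mod_cast hp.one_lt.le
      have e : (fun c => UG (D := D) g a p c ^ 4) = fun c => 1 / (p : ℝ) ^ 6 * (∑ t : ZMod p, ZZ a.1.1 a.1.2 (vt c t)) ^ 4 := by
        funext c
        rw [UG_eq g a p h2 c, mul_pow]
        congr 1
        calc (1 / (p * √(p : ℝ))) ^ 4 = ((1 / (p * √(p : ℝ))) * (1 / (p * √(p : ℝ)))) ^ 2 := by ring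
          _ = 1 / (p : ℝ) ^ 6 := by rw [cube_sq hp0]; ring
      rw [e, EM_mul' p (1 / (p : ℝ) ^ 6) (fun c => (∑ t : ZMod p, ZZ a.1.1 a.1.2 (vt c t)) ^ 4),
        (EM_sum (D := D) p hD (ZZ a.1.1 a.1.2) (E_ZZ hm hK _ _)).2.2]
      have hcardpos : (0 : ℝ) < Fintype.card (Vx (dg g) → ZMod p) := by exact_mod_cast Fintype.card_pos
      have hZ : ∀ v : Vx (dg g) → ZMod p, |ZZ a.1.1 a.1.2 v| ≤ BB g * p := by
        intro v
        have := ZZ_le hK g a.1.1 a.1.2 v
        rwa [ZMod.card] at this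
      have hb : ∀ k : ℕ, Even k → (∑ v : Vx (dg g) → ZMod p, ZZ a.1.1 a.1.2 v ^ k) / (Fintype.card (Vx (dg g) → ZMod p) : ℝ) ≤
          (BB g * p) ^ k := by
        intro k hk
        rw [div_le_iff₀ hcardpos]
        calc ∑ v : Vx (dg g) → ZMod p, ZZ a.1.1 a.1.2 v ^ k ≤ ∑ _v : Vx (dg g) → ZMod p, (BB g * p) ^ k := by
              refine Finset.sum_le_sum fun v _ => ?_
              rw [← hk.pow_abs]
              exact pow_le_pow_left₀ (abs_nonneg _) (hZ v) k
          _ = _ := by rw [Finset.sum_const, card_univ, nsmul_eq_mul]; ring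
      have h4 := hb 4 (by decide)
      have h22 := hb 2 (by decide)
      obtain ⟨A, hA⟩ : ∃ A : ℝ, A = (∑ v : Vx (dg g) → ZMod p, ZZ a.1.1 a.1.2 v ^ 4) /
        (Fintype.card (Vx (dg g) → ZMod p) : ℝ) := ⟨_, rfl⟩
      obtain ⟨E, hE⟩ : ∃ E : ℝ, E = (∑ v : Vx (dg g) → ZMod p, ZZ a.1.1 a.1.2 v ^ 2) /
        (Fintype.card (Vx (dg g) → ZMod p) : ℝ) := ⟨_, rfl⟩
      rw [← hA] at h4 ⊢
      rw [← hE] at h22 ⊢
      have hE0 : 0 ≤ E := by rw [hE]; positivity
      have h5 : E ^ 2 ≤ ((BB g * p) ^ 2) ^ 2 := pow_le_pow_left₀ hE0 h22 2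
      have h6 : 0 ≤ 3 * ((p : ℝ) * (p - 1)) := by
        have : 0 ≤ (p : ℝ) - 1 := by linarith
        positivity
      calc 1 / (p : ℝ) ^ 6 * (p * A + 3 * (p * (p - 1)) * E ^ 2) ≤
          1 / (p : ℝ) ^ 6 * (p * (BB g * p) ^ 4 + 3 * (p * (p - 1)) * ((BB g * p) ^ 2) ^ 2) := by
            refine mul_le_mul_of_nonneg_left ?_ (by positivity)
            exact add_le_add (mul_le_mul_of_nonneg_left h4 hp0.le) (mul_le_mul_of_nonneg_left h5 h6)
        _ = BB g ^ 4 * ((p + 3 * (p * (p - 1))) / p ^ 2) := by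
            field_simp
        _ ≤ BB g ^ 4 * 4 := by
            refine mul_le_mul_of_nonneg_left ?_ hB4
            rw [div_le_iff₀ (by positivity)]
            nlinarith
        _ ≤ _ := by linarith

end Data

end Pool.Agent.U62.GO
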