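import Pool.Agent.U62.NG.Loc
import Pool.Agent.U62.CL.Ix

/-!
# Products of the character sums of several random hyperelliptic curves: the moments
-/

set_option autoImplicit false
set_option linter.unusedSectionVars false

namespace Pool.Agent.U62.GO

open Finset Pool.Agent.U62.NG Pool.Agent.Y57.FD.Mom

section Prod

variable {K : Type} [Field K] [Fintype K] [DecidableEq K] {N : ℕ} {m : Fin N → ℕ}

/-- The index type of the coefficients of `N` polynomials. -/
abbrev Vx (m : Fin N → ℕ) : Type := Σ i : Fin N, Fin (m i)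

/-- The mean over a finite type. -/
noncomputable def EV {V : Type} [Fintype V] (f : V → ℝ) : ℝ := (∑ v, f v) / (Fintype.card V : ℝ)

theorem E_prod (F : ∀ i, (Fin (m i) → K) → ℝ) :
    EV (fun v : Vx m → K => ∏ i, F i (fun k => v ⟨i, k⟩)) = ∏ i, EV (F i) := by
  unfold EV
  rw [Finset.prod_div_distrib]
  have h1 : ∏ i, ∑ u, F i u = ∑ w : (∀ i, Fin (m i) → K), ∏ i, F i (w i) := by
    rw [Finset.prod_univ_sum, Fintype.piFinset_univ]
  have h2 : ∑ v : Vx m → K, ∏ i, F i (fun k => v ⟨i, k⟩) = ∑ w : (∀ i, Fin (m i) → K), ∏ i, F i (w i) :=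
    Fintype.sum_equiv (Equiv.piCurry (fun (i : Fin N) (_ : Fin (m i)) => K)) _ _ fun v => rfl
  have h3 : (Fintype.card (Vx m → K) : ℝ) = ∏ i, (Fintype.card (Fin (m i) → K) : ℝ) := by
    rw [Fintype.card_congr (Equiv.piCurry (fun (i : Fin N) (_ : Fin (m i)) => K)), Fintype.card_pi]
    push_cast
    rfl
  rw [h1, h2, h3]

/-- The character sum of the `i`-th curve. -/
noncomputable def hh (i : Fin N) (v : Vx m → K) : ℝ := ∑ x : K, (quadraticChar K (val K (m i) (fun k => v ⟨i, k⟩) x) : ℝ)

theorem E_mon (e : Fin N → ℕ) (he : ∀ i, e i ≤ m i) :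
    EV (fun v : Vx m → K => ∏ i, hh i v ^ e i) = ∏ i, M K (e i) (Fintype.card K) := by
  have h := E_prod (K := K) (m := m) (fun i u => (∑ x : K, (quadraticChar K (val K (m i) u x) : ℝ)) ^ e i)
  refine Eq.trans ?_ (h.trans ?_)
  · rfl
  · refine Finset.prod_congr rfl fun i _ => ?_
    unfold EV
    rw [← moment_eq K (e i) (m i) (he i), Fintype.card_fun, Fintype.card_fin]
    push_cast
    rfl

theorem ev_add {V : Type} [Fintype V] (f g : V → ℝ) : EV (fun v => f v + g v) = EV f + EV g := by
  unfold EV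
  rw [Finset.sum_add_distrib, add_div]

theorem ev_mul {V : Type} [Fintype V] (a : ℝ) (f : V → ℝ) : EV (fun v => a * f v) = a * EV f := by
  unfold EV
  rw [← Finset.mul_sum, mul_div_assoc]

theorem ev_const {V : Type} [Fintype V] [Nonempty V] (a : ℝ) : EV (fun _ : V => a) = a := by
  have : (0 : ℝ) < Fintype.card V := by exact_mod_cast Fintype.card_pos
  unfold EV
  rw [Finset.sum_const, card_univ, nsmul_eq_mul]
  field_simp

/-- The exponents. -/
def ex (i j k l : Fin N) (a : Fin N) : ℕ :=
  (if i = a then 1 else 0) + (if j = a then 1 else 0) + (if k = a then 1 else 0) + (if l = a then 1 else 0)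

theorem E_four (hm : ∀ i, 4 ≤ m i) (i j k l : Fin N) :
    EV (fun v : Vx m → K => hh i v * hh j v * hh k v * hh l v) = ∏ a, M K (ex i j k l a) (Fintype.card K) := by
  rw [← E_mon (K := K) (ex i j k l) (fun a => ?_)]
  · congr 1
    funext v
    unfold ex
    simp only [pow_add, Finset.prod_mul_distrib, Finset.prod_pow_boole, mem_univ, if_true]
  · unfold ex
    have := hm a
    split_ifs <;> omega

theorem E_two (hm : ∀ i, 4 ≤ m i) (i j : Fin N) :
    EV (fun v : Vx m → K => hh i v * hh j v) =
      ∏ a, M K ((if i = a then 1 else 0) + (if j = a then 1 else 0)) (Fintype.card K) := by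
  rw [← E_mon (K := K) (fun a => (if i = a then 1 else 0) + (if j = a then 1 else 0)) (fun a => ?_)]
  · congr 1
    funext v
    simp only [pow_add, Finset.prod_mul_distrib, Finset.prod_pow_boole, mem_univ, if_true]
  · have := hm a
    split_ifs <;> omega

theorem M_two (n : ℕ) (hK : ringChar K ≠ 2) : M K 2 n = n * (1 - 1 / (Fintype.card K : ℝ)) := by
  have h1 : ee (fun c : K => (quadraticChar K c : ℝ)) 1 = 0 := e_odd K hK 1 (by decide)
  have h2 : ee (fun c : K => (quadraticChar K c : ℝ)) 2 = 1 - 1 / (Fintype.card K : ℝ) := e_even K 2 (by decide) (by decide)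
  have h := MM_two (fun c : K => (quadraticChar K c : ℝ)) h1 n
  rw [h2] at h
  exact h

theorem M_four (n : ℕ) (hK : ringChar K ≠ 2) : M K 4 n =
    n * (1 - 1 / (Fintype.card K : ℝ)) + 3 * (n * (n - 1)) * (1 - 1 / (Fintype.card K : ℝ)) ^ 2 := by
  have h1 : ee (fun c : K => (quadraticChar K c : ℝ)) 1 = 0 := e_odd K hK 1 (by decide)
  have h2 : ee (fun c : K => (quadraticChar K c : ℝ)) 2 = 1 - 1 / (Fintype.card K : ℝ) := e_even K 2 (by decide) (by decide)
  have h4 : ee (fun c : K => (quadraticChar K c : ℝ)) 4 = 1 - 1 / (Fintype.card K : ℝ) := e_even K 4 (by decide) (by decide)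
  have h := MM_four (fun c : K => (quadraticChar K c : ℝ)) h1 n
  rw [h2, h4] at h
  exact h


theorem M_two' (hK : ringChar K ≠ 2) : M K 2 (Fintype.card K) = (Fintype.card K : ℝ) - 1 := by
  have : (0 : ℝ) < Fintype.card K := by exact_mod_cast Fintype.card_pos
  rw [M_two _ hK]
  field_simp

theorem M_four' (hK : ringChar K ≠ 2) : M K 4 (Fintype.card K) = ((Fintype.card K : ℝ) - 1) + 3 * ((Fintype.card K : ℝ) - 1) ^ 3 / (Fintype.card K : ℝ) := by
  have : (0 : ℝ) < Fintype.card K := by exact_mod_cast Fintype.card_pos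
  rw [M_four _ hK]
  field_simp

/-- The centred products. -/
noncomputable def ZZ (i j : Fin N) (v : Vx m → K) : ℝ := hh i v * hh j v - if i = j then (Fintype.card K : ℝ) - 1 else 0

theorem E_two_ne (hm : ∀ i, 4 ≤ m i) (hK : ringChar K ≠ 2) {i j : Fin N} (h : i ≠ j) :
    EV (fun v : Vx m → K => hh i v * hh j v) = 0 := by
  rw [E_two hm]
  refine Finset.prod_eq_zero (mem_univ i) (M_odd K hK _ ?_ _)
  rw [if_pos rfl, if_neg (Ne.symm h)]
  decide

theorem E_two_eq (hm : ∀ i, 4 ≤ m i) (hK : ringChar K ≠ 2) (i : Fin N) :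
    EV (fun v : Vx m → K => hh i v * hh i v) = (Fintype.card K : ℝ) - 1 := by
  rw [E_two hm, Finset.prod_eq_single_of_mem i (mem_univ i)]
  · simp only [if_true]
    exact M_two' hK
  · intro a _ ha
    rw [if_neg (Ne.symm ha)]
    exact M_zero K _

theorem E_four_odd (hm : ∀ i, 4 ≤ m i) (hK : ringChar K ≠ 2) {i j k l : Fin N} (a : Fin N) (ha : Odd (ex i j k l a)) :
    EV (fun v : Vx m → K => hh i v * hh j v * hh k v * hh l v) = 0 := by
  rw [E_four hm]
  exact Finset.prod_eq_zero (mem_univ a) (M_odd K hK _ ha _)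

theorem E_four_all (hm : ∀ i, 4 ≤ m i) (hK : ringChar K ≠ 2) (i : Fin N) :
    EV (fun v : Vx m → K => hh i v * hh i v * hh i v * hh i v) = ((Fintype.card K : ℝ) - 1) + 3 * ((Fintype.card K : ℝ) - 1) ^ 3 / (Fintype.card K : ℝ) := by
  rw [E_four hm, Finset.prod_eq_single_of_mem i (mem_univ i)]
  · have : ex i i i i i = 4 := by simp [ex]
    rw [this]
    exact M_four' hK
  · intro a _ ha
    have : ex i i i i a = 0 := by simp [ex, Ne.symm ha]
    rw [this]
    exact M_zero K _

theorem E_four_pairs (hK : ringChar K ≠ 2) {i k : Fin N} (h : i ≠ k) (e : Fin N → ℕ)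
    (he : ∀ a, e a = (if i = a then 2 else 0) + (if k = a then 2 else 0)) :
    ∏ a, M K (e a) (Fintype.card K) = ((Fintype.card K : ℝ) - 1) ^ 2 := by
  rw [Finset.prod_eq_mul i k h]
  · rw [he, he, if_pos rfl, if_neg (Ne.symm h), if_neg h, if_pos rfl, M_two' hK]
    ring
  · intro a _ ha
    rw [he, if_neg (Ne.symm ha.1), if_neg (Ne.symm ha.2)]
    exact M_zero K _
  · intro h1
    exact absurd (mem_univ i) h1
  · intro h1
    exact absurd (mem_univ k) h1

theorem E_ZZ (hm : ∀ i, 4 ≤ m i) (hK : ringChar K ≠ 2) (i j : Fin N) : EV (fun v : Vx m → K => ZZ i j v) = 0 := by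
  unfold ZZ
  have e : (fun v : Vx m → K => hh i v * hh j v - if i = j then (Fintype.card K : ℝ) - 1 else 0) =
      fun v => hh i v * hh j v + -(if i = j then (Fintype.card K : ℝ) - 1 else 0) := by
    funext v
    ring
  rw [e, ev_add, ev_const]
  by_cases h : i = j
  · subst h
    rw [E_two_eq hm hK, if_pos rfl]
    ring
  · rw [E_two_ne hm hK h, if_neg h]
    ring

theorem E_ZZZZ (hm : ∀ i, 4 ≤ m i) (hK : ringChar K ≠ 2) {i j k l : Fin N} (hij : i ≤ j) (hkl : k ≤ l) :
    EV (fun v : Vx m → K => ZZ i j v * ZZ k l v) =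
      if i = k ∧ j = l then (if i = j then ((Fintype.card K : ℝ) - 1) + 3 * ((Fintype.card K : ℝ) - 1) ^ 3 / (Fintype.card K : ℝ) - ((Fintype.card K : ℝ) - 1) ^ 2 else ((Fintype.card K : ℝ) - 1) ^ 2) else 0 := by
  have e : (fun v : Vx m → K => ZZ i j v * ZZ k l v) =
      fun v => hh i v * hh j v * hh k v * hh l v + (-(if k = l then (Fintype.card K : ℝ) - 1 else 0) * (hh i v * hh j v) +
        (-(if i = j then (Fintype.card K : ℝ) - 1 else 0) * (hh k v * hh l v) + (if i = j then (Fintype.card K : ℝ) - 1 else 0) * (if k = l then (Fintype.card K : ℝ) - 1 else 0))) := by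
    funext v
    unfold ZZ
    ring
  rw [e, ev_add, ev_add, ev_add, ev_mul, ev_mul, ev_const]
  by_cases h1 : i = j
  · by_cases h2 : k = l
    · subst h1 h2
      rw [if_pos rfl, if_pos rfl, E_two_eq hm hK, E_two_eq hm hK]
      by_cases h3 : i = k
      · subst h3
        rw [E_four_all hm hK, if_pos ⟨rfl, rfl⟩, if_pos rfl]
        ring
      · rw [if_neg (fun h => h3 h.1), E_four hm, E_four_pairs hK h3 _ (fun a => by
          unfold ex
          split_ifs <;> rfl)]
        ring
    · subst h1
      rw [if_neg h2, if_pos rfl, E_two_ne hm hK h2, if_neg (fun h => h2 (h.1.symm.trans h.2)),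
        E_four_odd hm hK k (by
          unfold ex
          rw [if_pos rfl, if_neg (Ne.symm h2)]
          split_ifs <;> decide)]
      ring
  · by_cases h2 : k = l
    · subst h2
      rw [if_neg h1, if_pos rfl, E_two_ne hm hK h1, if_neg (fun h => h1 (h.1.trans h.2.symm)),
        E_four_odd hm hK i (by
          unfold ex
          rw [if_pos rfl, if_neg (Ne.symm h1)]
          split_ifs <;> decide)]
      ring
    · rw [if_neg h1, if_neg h2, E_two_ne hm hK h1, E_two_ne hm hK h2]
      by_cases h3 : i = k ∧ j = l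
      · obtain ⟨rfl, rfl⟩ := h3
        rw [if_pos ⟨rfl, rfl⟩, if_neg h1, E_four hm, E_four_pairs hK h1 _ (fun a => by
          unfold ex
          split_ifs <;> rfl)]
        ring
      · rw [if_neg h3]
        by_cases h4 : k = i ∨ l = i
        · -- then `j` is not among `k`, `l`
          have h5 : k ≠ j ∧ l ≠ j := by
            rcases h4 with h4 | h4
            · refine ⟨fun h => h1 (h4.symm.trans h), fun h => h3 ⟨h4.symm, h.symm⟩⟩
            · refine ⟨fun h => ?_, fun h => h1 (h4.symm.trans h)⟩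
              -- k = j, l = i: k ≤ l, i ≤ j
              have h6 : j ≤ i := by rw [← h, ← h4]; exact hkl
              exact h1 (le_antisymm hij h6)
          rw [E_four_odd hm hK j (by
            unfold ex
            rw [if_neg h1, if_pos rfl, if_neg h5.1, if_neg h5.2]
            decide)]
          ring
        · push Not at h4
          rw [E_four_odd hm hK i (by
            unfold ex
            rw [if_pos rfl, if_neg (Ne.symm h1), if_neg h4.1, if_neg h4.2]
            decide)]
          ring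

end Prod

end Pool.Agent.U62.GO
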